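import Pool.Agent.R666.PS.All

/-!
# Simple permutations sortable by two parallel pop stacks with a bypass

The machine (`PopSt.Mach`, `PopSt.Op`), `PopSt.Sortable` and `PopSt.Simple` are defined in
`Pool/Agent/R666/PS/Defs.lean`.  For every `n ≥ 3` the number of simple sortable permutations of
size `n` is `F_{2n-5} - 1` for odd `n` and `F_{2n-5}` for even `n`.
-/

set_option autoImplicit false

namespace Pool.Agent.Results.MP_95815e_co.SimpleCount

/-- **The number of simple permutations of size `n ≥ 3` sortable by two parallel pop stacks with a
bypass.** -/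
theorem result (n : ℕ) (hn : 3 ≤ n) :
    Nat.card {σ : Equiv.Perm (Fin n) // PopSt.Simple σ ∧ PopSt.Sortable σ} =
      if Odd n then Nat.fib (2 * n - 5) - 1 else Nat.fib (2 * n - 5) :=
  PopSt.answer n hn

end Pool.Agent.Results.MP_95815e_co.SimpleCount
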